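import Pool.Agent.TH342.CV.Joint
import Pool.Agent.TH342.CV.Pairs
import Pool.Agent.H370R2.DirGood

/-!
# Simultaneous simple critical zeros of many L-functions near arbitrary shifts

No hypothesis is assumed.  Let `p = 2 - c_MT⁻¹ = 0.6725…` be the Montgomery-Taylor proportion.

For arbitrary shifts `a_1, …, a_m`, the `k`-level correlations: at least `k + 1 > p m - o(m)` of the `m`
windows of bounded normalised length at `t + a_i` contain a simple critical zero of the `i`-th L-function, for a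
positive proportion of the `t`; in particular some `(k + 1)`-level correlation of the L-functions (all
equal to zeta, if one likes) at positions among the `a_i` is of the right order of magnitude.
-/

open Filter Topology Complex Set MeasureTheory
open scoped ENNReal

namespace Pool.Agent.Results.MP_67227b_nt.ManyLFunctionsNearShifts

open Pool.Agent.TH342.CV

/-- the Montgomery-Taylor proportion `2 - c_MT⁻¹ = 3/2 - cot(1/√2)/√2 = 0.6725…` -/
noncomputable def p : ℝ := 3 / 2 - Real.cot (1 / Real.sqrt 2) / Real.sqrt 2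

/-- `1/2 + i x` is a simple zero of `F` -/
def Simple (F : ℂ → ℂ) (x : ℝ) : Prop :=
  F (1 / 2 + x * I) = 0 ∧ analyticOrderNatAt F (1 / 2 + x * I) = 1

/-- the indices `i` such that `F_i` has a simple zero on the critical line with ordinate between
`t + a_i` and `t + a_i + G · 2π / log T` (`G` mean spacings at the height `T`) -/
def hits {m : ℕ} (F : Fin m → ℂ → ℂ) (T G : ℝ) (a : Fin m → ℝ) (t : ℝ) : Set (Fin m) :=
  {i | ∃ x : ℝ, t + a i < x ∧ x < t + a i + G * (2 * Real.pi / Real.log T) ∧ Simple (F i) x}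

/-- the families `(x_i)`, `i ∈ J`, where `x_i` is the ordinate of a simple zero of `F_i` on the
critical line, `T < x_i`, `x_i - a_i < T + H + G · 2π / log T`, and all the differences
`(x_i - x_j) log T / 2π` are within `G` of `(a_i - a_j) log T / 2π` -/
def tuples {m : ℕ} (F : Fin m → ℂ → ℂ) (T H G : ℝ) (a : Fin m → ℝ) (J : Finset (Fin m)) :
    Set (J → ℝ) :=
  {x | (∀ i : J, T < x i ∧ x i - a i < T + H + G * (2 * Real.pi / Real.log T) ∧
      Simple (F i) (x i)) ∧
    ∀ i j : J, |((x i - x j) - (a i - a j)) * Real.log T / (2 * Real.pi)| < G}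

/-- modulus `1`: the Riemann zeta function -/
theorem zeta_case (χ : DirichletCharacter ℂ 1) :
    χ.IsPrimitive ∧ DirichletCharacter.LFunction χ = riemannZeta := by
  refine ⟨?_, DirichletCharacter.LFunction_modOne_eq⟩
  rw [DirichletCharacter.level_one' χ rfl]
  exact DirichletCharacter.isPrimitive_one_level_one

lemma p_eq : p = 2 - H370.cMTinv := by
  unfold p H370.cMTinv
  ring

lemma tuples_finite {m : ℕ} {F : Fin m → ℂ → ℂ} (hF : ∀ i, H370.GoodL (F i)) {T : ℝ} (hT : 1 ≤ T)
    (H G : ℝ) (a : Fin m → ℝ) (J : Finset (Fin m)) : (tuples F T H G a J).Finite := by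
  have h1 := Set.Finite.pi' (fun i : J => simple_finite (hF i) (T1 := T)
    (T2 := T + H + G * (2 * Real.pi / Real.log T) + a i) hT)
  refine h1.subset ?_
  rintro x ⟨hx, -⟩ i
  obtain ⟨q1, q2, q3⟩ := hx i
  exact ⟨q1, by linarith, q3⟩

/-- from the measure to the number of the tuples -/
lemma count {m : ℕ} {F : Fin m → ℂ → ℂ} (hF : ∀ i, H370.GoodL (F i)) {T H G : ℝ} (hT : 2 ≤ T)
    (hG : 0 < G) (a : Fin m → ℝ) (ha : ∀ i, 0 ≤ a i) (J : Finset (Fin m)) (hJ : J.Nonempty) :
    volume {t : ℝ | t ∈ Ioo T (T + H) ∧ ∀ i ∈ J, i ∈ hits F T G a t} ≤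
      ENNReal.ofReal ((tuples F T H G a J).ncard * (G * (2 * Real.pi / Real.log T))) := by
  classical
  have hfin := tuples_finite hF (by linarith : (1 : ℝ) ≤ T) H G a J
  obtain ⟨i0, hi0⟩ := hJ
  have hlog : 0 < Real.log T := Real.log_pos (by linarith)
  have hpi := Real.pi_pos
  have hw : 0 < G * (2 * Real.pi / Real.log T) := by positivity
  set w := G * (2 * Real.pi / Real.log T) with hwdef
  have hsub : {t : ℝ | t ∈ Ioo T (T + H) ∧ ∀ i ∈ J, i ∈ hits F T G a t} ⊆
      ⋃ x ∈ hfin.toFinset, Ioo (x ⟨i0, hi0⟩ - a i0 - w) (x ⟨i0, hi0⟩ - a i0) := by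
    rintro t ⟨⟨ht1, ht2⟩, ht⟩
    choose x hx1 hx2 hx3 using ht
    refine Set.mem_iUnion₂.2 ⟨fun i => x i i.2, ?_, ?_⟩
    · rw [Set.Finite.mem_toFinset]
      refine ⟨fun i => ⟨?_, ?_, hx3 i i.2⟩, fun i j => ?_⟩
      · have h1 := hx1 i i.2
        have h2 := ha i
        linarith
      · have h1 := hx2 i i.2
        rw [← hwdef] at h1 ⊢
        linarith
      · have h1 := hx1 i i.2
        have h2 := hx2 i i.2
        have h3 := hx1 j j.2
        have h4 := hx2 j j.2
        rw [← hwdef] at h2 h4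
        have h5 : |(x i i.2 - x j j.2) - (a i - a j)| < w := by
          rw [abs_lt]; constructor <;> linarith
        rw [abs_div, abs_mul, abs_of_pos hlog, abs_of_pos (by positivity : 0 < 2 * Real.pi),
          div_lt_iff₀ (by positivity)]
        have h6 : w * Real.log T = G * (2 * Real.pi) := by
          rw [hwdef]; field_simp
        have h7 := mul_lt_mul_of_pos_right h5 hlog
        rw [h6] at h7
        exact h7
    · have h1 := hx1 i0 hi0
      have h2 := hx2 i0 hi0
      rw [← hwdef] at h2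
      exact ⟨by simp only; linarith, by simp only; linarith⟩
  refine (measure_mono hsub).trans ((measure_biUnion_finset_le _ _).trans ?_)
  have h1 : ∀ x ∈ hfin.toFinset, volume (Ioo (x ⟨i0, hi0⟩ - a i0 - w) (x ⟨i0, hi0⟩ - a i0)) ≤
      ENNReal.ofReal w := by
    intro x _
    rw [Real.volume_Ioo]
    apply ENNReal.ofReal_le_ofReal
    linarith
  refine (Finset.sum_le_sum h1).trans ?_
  rw [Finset.sum_const, nsmul_eq_mul, ← Set.ncard_eq_toFinset_card _ hfin,
    ENNReal.ofReal_mul (Nat.cast_nonneg _), ENNReal.ofReal_natCast]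

/-- **Main theorem.** Let `m`, `k` be such that `k < p m`, `p = 0.6725…`, and `ε > 0`. There are `G, δ > 0`
such that for any `m` primitive Dirichlet L-functions `F_1, …, F_m` (equal or not; modulus `1`: the Riemann
zeta function), all large `T`, all `T ^ (1 - δ) ≤ H ≤ T` and all shifts `a_1, …, a_m ∈ [0, T ^ (1 + δ)]`:
(1) the set of the `t ∈ (T, T + H)` such that at least `k + 1` of the `F_i` have a simple zero on the
critical line with ordinate in `(t + a_i, t + a_i + G · 2π / log T)` has measure at least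
`((p m - k) / (m - k) - ε) H`; (2) for some `J` with `k + 1` elements there are at least
`c (H / 2π) log T` families `(x_i)_{i ∈ J}` of ordinates of simple critical zeros, `x_i` of `F_i`, with all
normalised differences within `G` of those of the `a_i`, `c = ((p m - k) / (m - k) - ε) / (G · C(m, k + 1))`. -/
theorem result (m k : ℕ) (hk : (k : ℝ) < p * m) (ε : ℝ) (hε : 0 < ε) :
    ∃ G δ : ℝ, 0 < G ∧ 0 < δ ∧ ∀ (q : Fin m → ℕ) [∀ i, NeZero (q i)]
      (χ : ∀ i, DirichletCharacter ℂ (q i)), (∀ i, (χ i).IsPrimitive) →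
    ∃ T₀ : ℝ, ∀ T : ℝ, T₀ ≤ T → ∀ H : ℝ, T ^ (1 - δ) ≤ H → H ≤ T →
    ∀ a : Fin m → ℝ, (∀ i, 0 ≤ a i ∧ a i ≤ T ^ (1 + δ)) →
      ENNReal.ofReal (((p * m - k) / (m - k) - ε) * H) ≤
        volume {t : ℝ | t ∈ Ioo T (T + H) ∧
          k + 1 ≤ (hits (fun i => DirichletCharacter.LFunction (χ i)) T G a t).ncard} ∧
      ∃ J : Finset (Fin m), J.card = k + 1 ∧
        ((p * m - k) / (m - k) - ε) / (G * m.choose (k + 1)) *
            (H / (2 * Real.pi) * Real.log T) ≤
          ((tuples (fun i => DirichletCharacter.LFunction (χ i)) T H G a J).ncard : ℝ) := by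
  classical
  have hpi := Real.pi_pos
  rw [p_eq] at hk ⊢
  obtain ⟨G, hG, d, hd0, hd1, h⟩ := joint hk hε
  refine ⟨G, d, hG, hd0, fun q _ χ hχ => ?_⟩
  have hgood : ∀ i, H370.GoodL (DirichletCharacter.LFunction (χ i)) := fun i =>
    H370.good_dirichlet (χ i) (hχ i)
  obtain ⟨T0, hT0, h1⟩ := h (fun i => DirichletCharacter.LFunction (χ i)) hgood
  refine ⟨T0, fun T hT H hH1 hH2 a ha => ?_⟩
  have hT10 : 10 ≤ T := hT0.trans hT
  have hlog : 0 < Real.log T := Real.log_pos (by linarith)
  have hm : ENNReal.ofReal ((((2 - H370.cMTinv) * m - k) / (m - k) - ε) * H) ≤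
      volume {t : ℝ | t ∈ Ioo T (T + H) ∧
          k + 1 ≤ (hits (fun i => DirichletCharacter.LFunction (χ i)) T G a t).ncard} := by
    refine (h1 T hT H hH1 hH2 a ha).trans (measure_mono ?_)
    rintro t ⟨ht1, ht2⟩
    refine ⟨ht1, ht2.trans (Set.ncard_le_ncard ?_ (Set.toFinite _))⟩
    rintro i ⟨-, -, x, h2, h3, -, h5⟩
    exact ⟨x, h2, h3, h5⟩
  refine ⟨hm, ?_⟩
  have hkm : k + 1 ≤ m := by
    by_contra hcon
    have h2 : (m : ℝ) ≤ k := by exact_mod_cast (by omega : m ≤ k)
    have h3 := H370.cMTinv_gt_one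
    have h4 : (0 : ℝ) ≤ m := Nat.cast_nonneg m
    nlinarith
  by_contra hcon
  push Not at hcon
  set F : Fin m → ℂ → ℂ := fun i => DirichletCharacter.LFunction (χ i) with hFdef
  set w := G * (2 * Real.pi / Real.log T) with hwdef
  have hw : 0 < w := by positivity
  set C : ℝ := (((2 - H370.cMTinv) * m - k) / (m - k) - ε) with hC
  have hsub : {t : ℝ | t ∈ Ioo T (T + H) ∧ k + 1 ≤ (hits F T G a t).ncard} ⊆
      ⋃ J ∈ Finset.powersetCard (k + 1) (Finset.univ : Finset (Fin m)),
        {t : ℝ | t ∈ Ioo T (T + H) ∧ ∀ i ∈ J, i ∈ hits F T G a t} := by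
    rintro t ⟨ht1, ht2⟩
    rw [Set.ncard_eq_toFinset_card' ] at ht2
    obtain ⟨J, hJ1, hJ2⟩ := Finset.exists_subset_card_eq ht2
    refine Set.mem_iUnion₂.2 ⟨J, Finset.mem_powersetCard.2 ⟨Finset.subset_univ _, hJ2⟩, ht1, ?_⟩
    intro i hi
    exact Set.mem_toFinset.1 (hJ1 hi)
  have h2 := hm.trans ((measure_mono hsub).trans (measure_biUnion_finset_le _ _))
  have hcard : (Finset.powersetCard (k + 1) (Finset.univ : Finset (Fin m))).card =
      m.choose (k + 1) := by
    rw [Finset.card_powersetCard, Finset.card_univ, Fintype.card_fin]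
  have hch : 0 < m.choose (k + 1) := Nat.choose_pos hkm
  have hch' : (0 : ℝ) < m.choose (k + 1) := by exact_mod_cast hch
  have h3 : ∀ J ∈ Finset.powersetCard (k + 1) (Finset.univ : Finset (Fin m)),
      volume {t : ℝ | t ∈ Ioo T (T + H) ∧ ∀ i ∈ J, i ∈ hits F T G a t} <
        ENNReal.ofReal (C * H / m.choose (k + 1)) := by
    intro J hJ
    rw [Finset.mem_powersetCard] at hJ
    have hJn : J.Nonempty := Finset.card_pos.1 (by omega)
    refine (count hgood (by linarith) hG a (fun i => (ha i).1) J hJn).trans_lt ?_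
    have h4 := hcon J hJ.2
    rw [ENNReal.ofReal_lt_ofReal_iff_of_nonneg (by positivity)]
    have h5 := mul_lt_mul_of_pos_right h4 hw
    refine h5.trans_eq ?_
    rw [hwdef]
    field_simp
  have h4 := ENNReal.sum_lt_sum_of_nonempty (Finset.card_pos.1 (hcard ▸ hch)) h3
  rw [Finset.sum_const, hcard, nsmul_eq_mul, ← ENNReal.ofReal_natCast,
    ← ENNReal.ofReal_mul (Nat.cast_nonneg _)] at h4
  have h5 : ((m.choose (k + 1) : ℕ) : ℝ) * (C * H / m.choose (k + 1)) = C * H := by
    field_simp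
  rw [h5] at h4
  exact absurd h2 (not_le.2 h4)

end Pool.Agent.Results.MP_67227b_nt.ManyLFunctionsNearShifts
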