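import Pool.Agent.Q173.PI.Out

/-!
# Joint normality and independence of far apart ordinates of zeta

Let `γ_1 ≤ γ_2 ≤ …` be the positive ordinates of the nontrivial zeros of zeta, repeated according to multiplicity,
and `M(t) = (t / 2π) log (t / 2π) - t / 2π`, so that `M(γ_m) - m` is the displacement of `γ_m` from its expected position,
measured in mean spacings.  Let `a_1, …, a_k > 0` and `0 < α_1, …, α_k ≤ 1` with distinct pairs `(a_j, α_j)`.  For `n` uniformly
distributed among the integers of `[R, 2R)`, `R → ∞`, the numbers `π (M(γ_{m_j}) - m_j) / √(log log R / 2)`,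
`m_j = ⌊a_j n^{α_j}⌋`, `j = 1, …, k`, are asymptotically independent standard normal variables, and every linear combination
of them is asymptotically normal. No hypothesis is used.

Idea of the proof.  With `W = M⁻¹` the displacements `N(t) - M(t)` at the heights `t_j = W(a_j u^{α_j})`, `u` uniform in
`(R, 2R]`, are asymptotically independent: the phases `q_1 t_1 + … + q_k t_k` with real frequencies `q_j` (logarithms of
rational numbers) are highly oscillating, because an elimination by differential operators shows that some derivative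
of bounded order with respect to `log u` is large everywhere (van der Corput's method then applies).  The ordinate
`γ_m` lies close to the height `W(m)`, and the displacement changes little over that distance, in the mean, by the
unconditional number variance.
-/

open Filter Topology

namespace Pool.Agent.Results.MP_67227b_nt.PowerIndices

/-- the number of nontrivial zeros of zeta with ordinate in `(0, t]`, counted with multiplicity -/
noncomputable def N (t : ℝ) : ℕ :=
  ∑ᶠ s ∈ {s : ℂ | riemannZeta s = 0 ∧ 0 < s.re ∧ s.re < 1 ∧ 0 < s.im ∧ s.im ≤ t}, analyticOrderNatAt riemannZeta s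

/-- for `m ≥ 1`: the `m`-th positive ordinate `γ m` of a nontrivial zero of zeta, the ordinates being listed in
nondecreasing order and repeated according to multiplicity -/
noncomputable def γ (m : ℕ) : ℝ := sInf {t : ℝ | m ≤ N t}

/-- the main term of the Riemann-von Mangoldt formula -/
noncomputable def M (t : ℝ) : ℝ := t / (2 * Real.pi) * Real.log (t / (2 * Real.pi)) - t / (2 * Real.pi)

/-- the displacement of the `m`-th ordinate from its expected position, in mean spacings -/
noncomputable def disp (m : ℕ) : ℝ := M (γ m) - m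

/-- the index `⌊a n ^ α⌋` -/
noncomputable def index (a α : ℝ) (n : ℕ) : ℕ := ⌊a * (n : ℝ) ^ α⌋₊

/-- the mass of `(x, y)` under the standard normal law -/
noncomputable def normalMass (x y : ℝ) : ℝ := ∫ u in x..y, Real.exp (-u ^ 2 / 2) / Real.sqrt (2 * Real.pi)

/-- the proportion of the integers in `[R, 2R)` with the property `P` -/
noncomputable def proportion (R : ℕ) (P : ℕ → Prop) : ℝ := ({n : ℕ | R ≤ n ∧ n < 2 * R ∧ P n}.ncard : ℝ) / R

lemma Y_eq {a α : ℝ} (ha : 0 < a) (T u : ℝ) : Pool.Agent.Q173.PI.Yf α (Real.log a) T u =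
    Real.pi * disp (index a α ⌊u⌋₊) / Real.sqrt (Real.log (Real.log T) / 2) := by
  unfold Pool.Agent.Q173.PI.Yf
  rw [Pool.Agent.Q173.JD.zT_eq]
  have e : Pool.Agent.Q173.PI.ix α (Real.log a) u = index a α ⌊u⌋₊ := by
    unfold Pool.Agent.Q173.PI.ix index
    rw [Real.exp_log ha]
  rw [e]
  rfl

/-- **Theorem.** Let `0 < a_j`, `0 < α_j ≤ 1`, with distinct pairs `(a_j, α_j)`. For `n` running over the integers of
`[R, 2R)`, `R → ∞`, the normalised displacements of the ordinates with indices `⌊a_j n ^ α_j⌋` are asymptotically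
independent standard normal variables, and the nonzero linear combinations are asymptotically normal. -/
theorem result (k : ℕ) (a α : Fin k → ℝ) (ha : ∀ j, 0 < a j) (hα : ∀ j, 0 < α j ∧ α j ≤ 1)
    (hinj : Function.Injective fun j => (a j, α j)) :
    (∀ x y : Fin k → ℝ, (∀ j, x j < y j) →
      Tendsto (fun R : ℕ => proportion R fun n => ∀ j,
        x j < Real.pi * disp (index (a j) (α j) n) / Real.sqrt (Real.log (Real.log R) / 2) ∧
        Real.pi * disp (index (a j) (α j) n) / Real.sqrt (Real.log (Real.log R) / 2) < y j) atTop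
        (𝓝 (∏ j, normalMass (x j) (y j)))) ∧
    (∀ c : Fin k → ℝ, (∃ j, c j ≠ 0) → ∀ x y : ℝ, x < y →
      Tendsto (fun R : ℕ => proportion R fun n =>
        x < Real.pi * (∑ j, c j * disp (index (a j) (α j) n)) /
          Real.sqrt ((∑ j, c j ^ 2) * (Real.log (Real.log R) / 2)) ∧
        Real.pi * (∑ j, c j * disp (index (a j) (α j) n)) /
          Real.sqrt ((∑ j, c j ^ 2) * (Real.log (Real.log R) / 2)) < y) atTop
        (𝓝 (normalMass x y))) := by
  have hchar := Pool.Agent.Q173.PI.y_char α (fun j => Real.log (a j)) (fun j => (hα j).1) (fun j => (hα j).2)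
    (fun i j h1 h2 => hinj (Prod.ext (by
      have := congrArg Real.exp h2
      rwa [Real.exp_log (ha i), Real.exp_log (ha j)] at this) h1))
  have hm : ∀ (T : ℝ) (j : Fin k), Measurable fun t => Pool.Agent.Q173.PI.Yf (α j) (Real.log (a j)) T t := fun T j =>
    Pool.Agent.Q173.PI.Yf_meas _ _ T
  constructor
  · intro x y hxy
    have h := Pool.Agent.Q173.JD.box_lim (X := fun T t j => Pool.Agent.Q173.PI.Yf (α j) (Real.log (a j)) T t) hm hchar x y
    simp_rw [Pool.Agent.Q173.JD.mass_eq (hxy _)] at h
    refine (h.comp tendsto_natCast_atTop_atTop).congr' ?_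
    filter_upwards [eventually_ge_atTop 1] with R hR
    show (Pool.Agent.Q173.JD.muT R).real _ = _
    simp_rw [fun j => Y_eq (α := α j) (ha j)]
    exact Pool.Agent.Q173.PI.disc R hR fun n => ∀ j,
        x j < Real.pi * disp (index (a j) (α j) n) / Real.sqrt (Real.log (Real.log R) / 2) ∧
        Real.pi * disp (index (a j) (α j) n) / Real.sqrt (Real.log (Real.log R) / 2) < y j
  · intro c hc x y hxy
    have hc0 : 0 < ∑ j, c j ^ 2 := by
      obtain ⟨j, hj⟩ := hc
      exact Finset.sum_pos' (fun i _ => sq_nonneg _) ⟨j, Finset.mem_univ j, by positivity⟩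
    have h := Pool.Agent.Q173.JD.lin_law (X := fun T t j => Pool.Agent.Q173.PI.Yf (α j) (Real.log (a j)) T t) hm hchar c hc0 x y
    rw [Pool.Agent.Q173.JD.mass_eq hxy] at h
    refine (h.comp tendsto_natCast_atTop_atTop).congr' ?_
    filter_upwards [eventually_ge_atTop 1] with R hR
    show (Pool.Agent.Q173.JD.muT R).real _ = _
    have e : ∀ t, (∑ j, c j * Pool.Agent.Q173.PI.Yf (α j) (Real.log (a j)) R t) / Real.sqrt (∑ j, c j ^ 2) =
        Real.pi * (∑ j, c j * disp (index (a j) (α j) ⌊t⌋₊)) / Real.sqrt ((∑ j, c j ^ 2) * (Real.log (Real.log R) / 2)) := by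
      intro t
      rw [Real.sqrt_mul hc0.le, mul_comm (Real.sqrt (∑ j, c j ^ 2)), ← div_div]
      congr 1
      rw [Finset.mul_sum, Finset.sum_div]
      refine Finset.sum_congr rfl fun j _ => ?_
      rw [Y_eq (ha j)]
      ring
    simp_rw [e]
    exact Pool.Agent.Q173.PI.disc R hR fun n =>
        x < Real.pi * (∑ j, c j * disp (index (a j) (α j) n)) /
          Real.sqrt ((∑ j, c j ^ 2) * (Real.log (Real.log R) / 2)) ∧
        Real.pi * (∑ j, c j * disp (index (a j) (α j) n)) /
          Real.sqrt ((∑ j, c j ^ 2) * (Real.log (Real.log R) / 2)) < y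

end Pool.Agent.Results.MP_67227b_nt.PowerIndices
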