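import Pool.Agent.Q173.NC.Glob

/-!
# The central limit theorem for the spacings between `r`-th neighbours

Unconditionally, the sum of `r` consecutive normalised gaps between the ordinates of the zeros of
zeta, that is the normalised distance `γ̃_{n+r} - γ̃_n` to the `r`-th neighbour, is asymptotically
normal with mean `r` and variance `(log r) / π²` as `r` tends to infinity, exactly as for the
eigenvalues of GUE matrices; the convergence is uniform over all `N` with `r log r ≤ B log N`, in
particular it holds for every fixed large `r` in the limit of large `N`, the order of the limits in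
which the sine-kernel determinant for all `k`-level correlations gives it.
-/

set_option autoImplicit false

open Filter MeasureTheory

namespace Pool.Agent.Results.MP_67227b_nt.RthNeighbourCLT

/-- multiplicity of `s` as a zero of the Riemann zeta function (order of vanishing at `s`) -/
noncomputable def zmult (s : ℂ) : ℕ := analyticOrderNatAt riemannZeta s

/-- the number of nontrivial zeros of `ζ` with ordinate in `(0, t]`, with multiplicity -/
noncomputable def NZ (t : ℝ) : ℕ :=
  ∑ᶠ s ∈ {s : ℂ | riemannZeta s = 0 ∧ 0 < s.re ∧ s.re < 1 ∧ 0 < s.im ∧ s.im ≤ t}, zmult s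

/-- for `n ≥ 1`: the `n`-th positive ordinate `γ n` of a nontrivial zero of `ζ`, the ordinates being
listed in nondecreasing order and repeated according to multiplicity -/
noncomputable def γ (n : ℕ) : ℝ := sInf {t : ℝ | n ≤ NZ t}

/-- the normalised ordinates `γ̃_n = γ_n log γ_n / (2π)` -/
noncomputable def γt (n : ℕ) : ℝ := 1 / (2 * Real.pi) * γ n * Real.log (γ n)

/-- the normalised gaps `δ_n = γ̃_{n+1} - γ̃_n` -/
noncomputable def δ (n : ℕ) : ℝ := γt (n + 1) - γt n

/-- **The central limit theorem for sums of `r` consecutive gaps.**  Let `B`, `x` and `ε > 0` be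
real.  If `r` is large enough, then for every `N` with `r log r ≤ B log N` the proportion of the
`n ≤ N` with `δ_n + ... + δ_{n+r-1} ≤ r + x √(log r) / π` differs by at most `ε` from the value at
`x` of the distribution function of the standard normal distribution. -/
theorem result (B x ε : ℝ) (hε : 0 < ε) : ∃ r₀ : ℕ, ∀ r : ℕ, r₀ ≤ r → ∀ N : ℕ,
    r * Real.log r ≤ B * Real.log N →
    |(1 / N : ℝ) * ({n : ℕ | 1 ≤ n ∧ n ≤ N ∧
        ∑ i ∈ Finset.range r, δ (n + i) ≤ r + x * (Real.sqrt (Real.log r) / Real.pi)}.ncard : ℝ) -
      (ProbabilityTheory.gaussianReal 0 1).real (Set.Iic x)| ≤ ε := by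
  obtain ⟨r0, h⟩ := Q173.NC.clt B x ε hε
  refine ⟨r0, fun r hr N hN => ?_⟩
  have h1 := h r hr N hN
  have e : {n : ℕ | 1 ≤ n ∧ n ≤ N ∧
      ∑ i ∈ Finset.range r, δ (n + i) ≤ r + x * (Real.sqrt (Real.log r) / Real.pi)} =
      {n : ℕ | 1 ≤ n ∧ n ≤ N ∧ Y743.CL.Ev x r n} := by
    ext n
    simp only [Set.mem_ofPred_eq]
    have h2 : ∑ i ∈ Finset.range r, δ (n + i) = γt (n + r) - γt n := by
      have := Finset.sum_range_sub (fun i => γt (n + i)) r
      simpa [δ, add_assoc] using this
    have h3 : Y743.CL.Ev x r n ↔ γt (n + r) - γt n ≤ r + x * (Real.sqrt (Real.log r) / Real.pi) := by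
      have h4 : ∀ m : ℕ, γt m = SG.ord m * Real.log (SG.ord m) / (2 * Real.pi) := by
        intro m
        have : γ m = SG.ord m := rfl
        unfold γt
        rw [this]
        ring
      rw [h4, h4]
      exact Iff.rfl
    rw [h2, h3]
  rw [e]
  exact h1

end Pool.Agent.Results.MP_67227b_nt.RthNeighbourCLT
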