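import Pool.Agent.Q31.GV.Ge

/-!
# The variance of the r-th neighbour spacing of the zeta zeros is of exact order 1 + log r (RH)

Assume RH.  Let `δ_n` be the unfolded gaps between consecutive ordinates.  For every fixed `r ≥ 1`
the mean square over `n ≤ N` of `δ_n + ⋯ + δ_{n+r-1} - r` lies, for all large `N`, between
`c (1 + log r)` and `C (1 + log r)`, with constants `c, C > 0` independent of `r`.

The sine-kernel prediction is `(1/π²) log r + O(1)`; independent gaps would give `r Var δ`.
The average is over the zeros (the index `n`), not over the height.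
-/

set_option autoImplicit false

open Filter

namespace Pool.Agent.Results.MP_67227b_nt.SpacingVariance

/-- multiplicity of `s` as a zero of the Riemann zeta function (order of vanishing at `s`) -/
noncomputable def zmult (s : ℂ) : ℕ := analyticOrderNatAt riemannZeta s

/-- the number of nontrivial zeros of `ζ` with ordinate in `(0, t]`, with multiplicity -/
noncomputable def NZ (t : ℝ) : ℕ :=
  ∑ᶠ s ∈ {s : ℂ | riemannZeta s = 0 ∧ 0 < s.re ∧ s.re < 1 ∧ 0 < s.im ∧ s.im ≤ t}, zmult s

/-- for `n ≥ 1`: the `n`-th positive ordinate `γ n` of a nontrivial zero of `ζ`, the ordinates being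
listed in nondecreasing order and repeated according to multiplicity -/
noncomputable def γ (n : ℕ) : ℝ := sInf {t : ℝ | n ≤ NZ t}

/-- the unfolded gaps `δ_n = (γ_{n+1} - γ_n) log(γ_n / 2π) / 2π` -/
noncomputable def δ (n : ℕ) : ℝ :=
  (γ (n + 1) - γ n) / (2 * Real.pi) * Real.log (γ n / (2 * Real.pi))

/-- the spacing between `γ_n` and its `r`-th neighbour `γ_{n+r}`, unfolded -/
noncomputable def spacing (r n : ℕ) : ℝ := ∑ i ∈ Finset.range r, δ (n + i)

/-- **The variance of the `r`-th neighbour spacing has exact order `1 + log r`.** -/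
theorem result (hRH : RiemannHypothesis) : ∃ c C : ℝ, 0 < c ∧ 0 < C ∧ ∀ r : ℕ, 1 ≤ r →
    ∀ᶠ N : ℕ in atTop,
      c * (1 + Real.log r) ≤ (1 / N : ℝ) * ∑ n ∈ Finset.Icc 1 N, (spacing r n - r) ^ 2 ∧
      (1 / N : ℝ) * ∑ n ∈ Finset.Icc 1 N, (spacing r n - r) ^ 2 ≤ C * (1 + Real.log r) := by
  obtain ⟨C, hC, hU⟩ := Q31.GV.var_le hRH
  obtain ⟨c, hc, hL⟩ := Q31.GV.var_ge hRH
  have hd : ∀ n, Y743.LR.dl n = δ n := by
    intro n
    change (SG.ord (n + 1) - SG.ord n) * Real.log (SG.ord n / (2 * Real.pi)) / (2 * Real.pi) =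
      (SG.ord (n + 1) - SG.ord n) / (2 * Real.pi) * Real.log (SG.ord n / (2 * Real.pi))
    ring
  have hS : ∀ r n, Q31.GV.SD r n = spacing r n := by
    intro r n
    unfold Q31.GV.SD spacing
    exact Finset.sum_congr rfl fun i _ => hd _
  refine ⟨c, C, hc, hC, fun r hr => ?_⟩
  have hU' := hU r hr
  unfold Q31.GV.Vb at hU'
  filter_upwards [hU', hL r hr, eventually_gt_atTop 0] with N h1 h2 hN
  have hN0 : (0 : ℝ) < N := by exact_mod_cast hN
  simp only [hS] at h1 h2
  rw [one_div, inv_mul_eq_div, le_div_iff₀ hN0, div_le_iff₀ hN0]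
  exact ⟨h2, h1⟩

end Pool.Agent.Results.MP_67227b_nt.SpacingVariance
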